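import Pool.Agent.Lib.MP_493565_co.Dep.Main

set_option autoImplicit false

namespace Pool.Agent.Results.MP_493565_co.ExactDepth

open Pool.Agent.Lib.MP_493565_co

/-- For all `K` and `n` there is a finite connected vertex-coloured simple graph on which, for
`2 ≤ k ≤ K`, every run of the recursive `k`-dim WL method goes wrong for the first time after
exactly `n` stabilisations, and on which the WL classes of `k`-tuples are the orbits on `k`-tuples
when `k ≤ n`. -/
theorem result : ∀ K n : ℕ,
    ∃ (V C : Type) (_ : Fintype V) (G : SimpleGraph V) (c : V → C), G.Connected ∧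
      ∀ k : ℕ, 2 ≤ k → k ≤ K →
        FailsFirstAt k G n c ∧ (k ≤ n → RefinesTuplesToOrbits k G c) := by
  classical
  intro K n
  exact ⟨Dep.U (n + K) n, _, inferInstance, Dep.DG (n + K) n, Dep.cl, Dep.connected (by omega),
    fun k h2 hk => ⟨Dep.failsFirstAt h2 (by omega) n _ ∅ Dep.inv_empty (by simp),
      Dep.refinesTuples⟩⟩

/-- The negated form of Q1 as the problem file words it, for every `k ≥ 3`: the case `n = 1`. -/
theorem posed (k : ℕ) (hk : 3 ≤ k) :
    ∃ (V C : Type) (_ : Fintype V) (G : SimpleGraph V) (c : V → C) (v : V),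
      RefinesToOrbits k G c ∧ ¬ RefinesToOrbits k G (individualise c v) := by
  obtain ⟨V, C, _, G, c, -, h⟩ := result k 1
  obtain ⟨h1, ⟨v, hv⟩, h3⟩ := (h k (by omega) le_rfl).1
  exact ⟨V, C, _, G, c, v, h1, h3 v hv⟩

end Pool.Agent.Results.MP_493565_co.ExactDepth
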